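import Pool.Agent.Helper5.FV.Stmts

set_option autoImplicit false

open Finset Pool.Agent.Helper8.UN

namespace Pool.Agent.Helper5.FV

/-- restriction of a proper colouring -/
theorem ste_res {n : ℕ} (E : Finset (Finset (Fin n))) (W : Finset (Fin n)) (k : ℕ)
    (h : 0 < PP E univ k) : 0 < PP E W k := by
  classical
  unfold PP at *
  rw [Finset.card_pos] at *
  obtain ⟨f, hf⟩ := h
  refine ⟨fun v => if v ∈ W then f v else 0, ?_⟩
  unfold CC at *
  rw [Finset.mem_filter, Fintype.mem_piFinset] at *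
  obtain ⟨h1, h2⟩ := hf
  constructor
  · intro v
    by_cases hv : v ∈ W
    · have := h1 v
      simp only [Finset.mem_univ, if_true] at this
      simp only [hv, if_true]
      exact this
    · simp [hv]
  · intro e he heW
    obtain ⟨u, hu, v, hv, huv⟩ := h2 e he (Finset.subset_univ e)
    refine ⟨u, hu, v, hv, ?_⟩
    simp only [heW hu, heW hv, if_true]
    exact huv

theorem ste_tt_nonneg {n : ℕ} (E : Finset (Finset (Fin n))) (Q : Finset (Finset (Fin n)))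
    (k : ℕ) : 0 ≤ tt E Q k := by
  unfold tt
  positivity

theorem ste_dec (h2 : ST_DEC) {n : ℕ} (k : ℕ) (E : Finset (Finset (Fin n)))
    (W0 : Finset (Fin n)) (h : Two E) : (PP E univ k : ℝ) = ∑ Q ∈ QQ E W0, tt E Q k := by
  rw [(h2 n k E W0 h).1]
  push_cast
  rfl

/-- the good classes carry almost everything -/
theorem ste_good {n : ℕ} (k : ℕ) (E : Finset (Finset (Fin n))) (W0 : Finset (Fin n))
    (hd : (PP E univ k : ℝ) = ∑ Q ∈ QQ E W0, tt E Q k) (hn : (0 : ℝ) < n)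
    (ht : (n : ℝ) ^ 5 * ∑ Q ∈ (QQ E W0).filter (fun Q => LL n W0 + W0.card ≤ (un Q).card),
      tt E Q k ≤ PP E univ k) :
    (1 - 1 / (n : ℝ) ^ 5) * ∑ Q ∈ QQ E W0, tt E Q k ≤
      ∑ Q ∈ (QQ E W0).filter (fun Q => (un Q).card < LL n W0 + W0.card), tt E Q k := by
  have e := Finset.sum_filter_add_sum_filter_not (QQ E W0)
    (fun Q => (un Q).card < LL n W0 + W0.card) (fun Q => tt E Q k)
  have e2 : (QQ E W0).filter (fun Q => ¬ (un Q).card < LL n W0 + W0.card) =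
      (QQ E W0).filter (fun Q => LL n W0 + W0.card ≤ (un Q).card) :=
    Finset.filter_congr fun Q _ => not_lt
  rw [e2] at e
  rw [hd] at ht
  have hn5 : 0 < (n : ℝ) ^ 5 := by positivity
  have h3 : ∑ Q ∈ (QQ E W0).filter (fun Q => LL n W0 + W0.card ≤ (un Q).card), tt E Q k ≤
      1 / (n : ℝ) ^ 5 * ∑ Q ∈ QQ E W0, tt E Q k := by
    rw [one_div, ← div_eq_inv_mul, le_div_iff₀ hn5, mul_comm]
    exact ht
  linarith

/-- large `n` -/
theorem ste_large {n : ℕ} (hn : 65536 ≤ n) : 1 ≤ Real.log n ∧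
    Real.log n ^ 2 ≤ 4 / 10 * n ∧ 1000 ≤ (n : ℝ) / Real.log n := by
  have hnr : (65536 : ℝ) ≤ n := by exact_mod_cast hn
  have hn0 : (0 : ℝ) < n := by linarith
  have hL1 : 1 ≤ Real.log n := by
    rw [Real.le_log_iff_exp_le hn0]
    have := Real.exp_one_lt_d9
    linarith
  obtain ⟨y, hy0, hy4⟩ : ∃ y : ℝ, 16 ≤ y ∧ y ^ 4 = n := by
    refine ⟨Real.sqrt (Real.sqrt n), ?_, ?_⟩
    · apply Real.le_sqrt_of_sq_le
      apply Real.le_sqrt_of_sq_le
      calc ((16 : ℝ) ^ 2) ^ 2 = 65536 := by norm_num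
        _ ≤ n := hnr
    · have : Real.sqrt (Real.sqrt n) ^ 4 = (Real.sqrt (Real.sqrt n) ^ 2) ^ 2 := by ring
      rw [this, Real.sq_sqrt (Real.sqrt_nonneg _), Real.sq_sqrt hn0.le]
  have hyp : 0 < y := by linarith
  have hL : Real.log n ≤ 4 * y := by
    rw [← hy4, Real.log_pow]
    have := Real.log_le_sub_one_of_pos hyp
    push_cast
    linarith
  refine ⟨hL1, ?_, ?_⟩
  · rw [← hy4]
    rw [← hy4] at hL hL1
    have h1 : Real.log (y ^ 4) ^ 2 ≤ (4 * y) ^ 2 := pow_le_pow_left₀ (by linarith) hL 2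
    have h2 : (256 : ℝ) ≤ y ^ 2 := by nlinarith
    have h3 : 0 ≤ y ^ 2 * (y ^ 2 - 256) := mul_nonneg (sq_nonneg y) (by linarith)
    have h4 : (4 * y) ^ 2 = 16 * y ^ 2 := by ring
    have h5 : y ^ 2 * (y ^ 2 - 256) = y ^ 4 - 256 * y ^ 2 := by ring
    rw [h4] at h1
    rw [h5] at h3
    nlinarith [sq_nonneg y]
  · rw [le_div_iff₀ (by linarith)]
    have h3 : 1000 * Real.log n ≤ 1000 * (4 * y) := by linarith
    have h4 : 1000 * (4 * y) ≤ y ^ 4 := by
      have : (4096 : ℝ) ≤ y ^ 3 := by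
        have := pow_le_pow_left₀ (by norm_num : (0 : ℝ) ≤ 16) hy0 3
        norm_num at this
        linarith
      nlinarith
    rw [hy4] at h4
    linarith

/-- the numerical part -/
theorem ste_num {n L k : ℝ} (hn : 65536 ≤ n) (hL : 1 ≤ L) (hL2 : L ^ 2 ≤ 4 / 10 * n)
    (hX : 1000 ≤ n / L) (hk1 : 67 / 100 * (n / L) ≤ k) (hk2 : k ≤ 121 / 100 * (n / L)) :
    9988 / 10000 * (n / (k * (k + 1))) ≤ 1 ∧
    4 * (1 / n ^ 5) + 8 / 1000000 * (L ^ 2 / n) ≤ 3 / 10000 * (n / (k * (k + 1))) ∧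
    4 * (1 / n ^ 5) ≤ 3 / 10000 * (n / k ^ 2) := by
  have hn0 : 0 < n := by linarith
  have hL0 : 0 < L := by linarith
  set X := n / L with hXd
  have hX0 : 0 < X := by linarith
  have hk0 : 0 < k := by nlinarith
  have eX : n = X * L := by rw [hXd]; field_simp
  have hq1 : n / (k * (k + 1)) ≤ 1 := by
    rw [div_le_one (by positivity)]
    have h1 : (67 / 100 * X) ^ 2 ≤ k ^ 2 := pow_le_pow_left₀ (by positivity) hk1 2
    have h2 : n ≤ (67 / 100 * X) ^ 2 := by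
      have h3 : X * L * n = n ^ 2 := by rw [← eX]; ring
      have h4 : X ^ 2 * L ^ 2 = n ^ 2 := by rw [eX]; ring
      have h5 : n ^ 2 ≤ X ^ 2 * (4 / 10 * n) := by
        rw [← h4]; exact mul_le_mul_of_nonneg_left hL2 (by positivity)
      have h6 : n ≤ X ^ 2 * (4 / 10) := by
        have : n * n ≤ (X ^ 2 * (4 / 10)) * n := by nlinarith
        exact le_of_mul_le_mul_right this hn0
      nlinarith [sq_nonneg X]
    nlinarith
  have hlow : L ^ 2 / (15 / 10 * n) ≤ n / (k * (k + 1)) := by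
    rw [div_le_div_iff₀ (by positivity) (by positivity)]
    have h1 : k + 1 ≤ 122 / 100 * X := by linarith
    have h2 : k * (k + 1) ≤ (121 / 100 * X) * (122 / 100 * X) :=
      mul_le_mul hk2 h1 (by positivity) (by positivity)
    have h3 : L ^ 2 * (k * (k + 1)) ≤ L ^ 2 * ((121 / 100 * X) * (122 / 100 * X)) :=
      mul_le_mul_of_nonneg_left h2 (by positivity)
    have h4 : L ^ 2 * ((121 / 100 * X) * (122 / 100 * X)) = 14762 / 10000 * (X * L) ^ 2 := by ring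
    rw [h4, ← eX] at h3
    nlinarith [sq_nonneg n]
  have hlow2 : n / (k * (k + 1)) ≤ n / k ^ 2 := by
    apply div_le_div_of_nonneg_left hn0.le (by positivity)
    nlinarith
  have hη : 4 * (1 / n ^ 5) ≤ 1 / 1000000 * (L ^ 2 / n) := by
    have e1 : 4 * (1 / n ^ 5) = (4 / n ^ 4) * (1 / n) := by field_simp
    have e2 : 4 / n ^ 4 ≤ 1 / 1000000 := by
      rw [div_le_div_iff₀ (by positivity) (by norm_num)]
      have : (65536 : ℝ) ^ 4 ≤ n ^ 4 := pow_le_pow_left₀ (by norm_num) hn 4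
      norm_num at this
      linarith
    have e3 : 1 / n ≤ L ^ 2 / n := by
      apply div_le_div_of_nonneg_right _ hn0.le
      nlinarith
    rw [e1]
    exact mul_le_mul e2 e3 (by positivity) (by norm_num)
  have e5 : L ^ 2 / (15 / 10 * n) = 2 / 3 * (L ^ 2 / n) := by field_simp; ring
  rw [e5] at hlow
  have hLn : 0 ≤ L ^ 2 / n := by positivity
  refine ⟨by linarith, by linarith, by linarith⟩

theorem ste_fin {P0 P1 P2 q1 q2 η ε2 T : ℝ} (hη0 : 0 ≤ η) (hη1 : η ≤ 1 / 4) (hq10 : 0 ≤ q1)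
    (hε0 : 0 ≤ ε2) (hε : ε2 = 4 / 1000000 * T)
    (N1 : 9988 / 10000 * q1 ≤ 1) (N2 : 4 * η + 8 / 1000000 * T ≤ 3 / 10000 * q1)
    (N3 : 4 * η ≤ 3 / 10000 * q2) (hPP : 0 < P0 * P2)
    (k1 : (1 + 9988 / 10000 * q1) * (1 - η) ^ 2 * (P0 * P2) ≤ Real.exp ε2 * P1 ^ 2)
    (k2 : (1 - η) ^ 2 * P1 ^ 2 ≤ Real.exp (10042 / 10000 * q2) * (P0 * P2)) :
    (1 + 9985 / 10000 * q1) * (P0 * P2) ≤ P1 ^ 2 ∧
      P1 ^ 2 ≤ Real.exp (10045 / 10000 * q2) * (P0 * P2) := by
  constructor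
  · have f1 : (1 + 9988 / 10000 * q1) * (1 - η) ^ 2 * (P0 * P2) * Real.exp (-ε2) ≤ P1 ^ 2 := by
      have h0 : Real.exp ε2 * P1 ^ 2 * Real.exp (-ε2) = P1 ^ 2 := by
        have : Real.exp ε2 * Real.exp (-ε2) = 1 := by rw [← Real.exp_add]; simp
        calc Real.exp ε2 * P1 ^ 2 * Real.exp (-ε2) =
            (Real.exp ε2 * Real.exp (-ε2)) * P1 ^ 2 := by ring
          _ = P1 ^ 2 := by rw [this, one_mul]
      calc (1 + 9988 / 10000 * q1) * (1 - η) ^ 2 * (P0 * P2) * Real.exp (-ε2) ≤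
          Real.exp ε2 * P1 ^ 2 * Real.exp (-ε2) :=
            mul_le_mul_of_nonneg_right k1 (Real.exp_pos _).le
        _ = P1 ^ 2 := h0
    have f2 : 1 - ε2 ≤ Real.exp (-ε2) := by
      have := Real.add_one_le_exp (-ε2)
      linarith
    have f3 : 1 - 2 * η - ε2 ≤ (1 - η) ^ 2 * Real.exp (-ε2) := by
      have g1 : 1 - 2 * η ≤ (1 - η) ^ 2 := by nlinarith [sq_nonneg η]
      have g2 : (1 - η) ^ 2 ≤ 1 := by nlinarith
      have g3 : Real.exp (-ε2) ≤ 1 := by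
        rw [Real.exp_le_one_iff]; linarith
      have g4 := mul_nonneg (sub_nonneg.2 g2) (sub_nonneg.2 g3)
      have g5 : (1 - (1 - η) ^ 2) * (1 - Real.exp (-ε2)) =
          1 - (1 - η) ^ 2 - Real.exp (-ε2) + (1 - η) ^ 2 * Real.exp (-ε2) := by ring
      rw [g5] at g4
      linarith
    have f4 : 1 + 9985 / 10000 * q1 ≤
        (1 + 9988 / 10000 * q1) * ((1 - η) ^ 2 * Real.exp (-ε2)) := by
      have g0 : 0 ≤ 2 * η + ε2 := by positivity
      have g1 : (1 + 9988 / 10000 * q1) * (1 - 2 * η - ε2) ≤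
          (1 + 9988 / 10000 * q1) * ((1 - η) ^ 2 * Real.exp (-ε2)) :=
        mul_le_mul_of_nonneg_left f3 (by positivity)
      have g2 : (9988 / 10000 * q1) * (2 * η + ε2) ≤ 1 * (2 * η + ε2) :=
        mul_le_mul_of_nonneg_right N1 g0
      have g3 : (1 + 9988 / 10000 * q1) * (1 - 2 * η - ε2) =
          1 + 9988 / 10000 * q1 - (2 * η + ε2) - (9988 / 10000 * q1) * (2 * η + ε2) := by ring
      rw [g3] at g1
      linarith
    calc (1 + 9985 / 10000 * q1) * (P0 * P2) ≤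
        ((1 + 9988 / 10000 * q1) * ((1 - η) ^ 2 * Real.exp (-ε2))) * (P0 * P2) :=
          mul_le_mul_of_nonneg_right f4 hPP.le
      _ = (1 + 9988 / 10000 * q1) * (1 - η) ^ 2 * (P0 * P2) * Real.exp (-ε2) := by ring
      _ ≤ P1 ^ 2 := f1
  · have g1 : Real.exp (-(4 * η)) ≤ (1 - η) ^ 2 := by
      have a1 : Real.exp (-(4 * η)) ≤ 1 / (1 + 4 * η) := by
        rw [Real.exp_neg, one_div]
        apply inv_anti₀ (by positivity)
        have := Real.add_one_le_exp (4 * η)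
        linarith
      have a2 : 1 / (1 + 4 * η) ≤ (1 - η) ^ 2 := by
        rw [div_le_iff₀ (by positivity)]
        have b1 : (1 - η) ^ 2 * (1 + 4 * η) = 1 + η * (2 - 7 * η + 4 * η ^ 2) := by ring
        have b2 : 0 ≤ η * (2 - 7 * η + 4 * η ^ 2) :=
          mul_nonneg hη0 (by linarith [sq_nonneg η])
        rw [b1]
        linarith
      exact a1.trans a2
    have g2 : Real.exp (-(4 * η)) * P1 ^ 2 ≤ Real.exp (10042 / 10000 * q2) * (P0 * P2) :=
      (mul_le_mul_of_nonneg_right g1 (sq_nonneg _)).trans k2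
    have g3 : Real.exp (4 * η) * (Real.exp (-(4 * η)) * P1 ^ 2) = P1 ^ 2 := by
      rw [← mul_assoc, ← Real.exp_add]
      simp
    calc P1 ^ 2 = Real.exp (4 * η) * (Real.exp (-(4 * η)) * P1 ^ 2) := g3.symm
      _ ≤ Real.exp (4 * η) * (Real.exp (10042 / 10000 * q2) * (P0 * P2)) :=
          mul_le_mul_of_nonneg_left g2 (Real.exp_pos _).le
      _ = Real.exp (4 * η + 10042 / 10000 * q2) * (P0 * P2) := by
          rw [Real.exp_add]; ring
      _ ≤ Real.exp (10045 / 10000 * q2) * (P0 * P2) := by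
          apply mul_le_mul_of_nonneg_right _ hPP.le
          apply Real.exp_le_exp.2
          linarith

theorem st_STE (h1 : ST_TAI) (h2 : ST_DEC) (h3 : ST_CMP) (h4 : ST_MIX) (h5 : ST_PSW)
    (_h6 : ST_QQC) : ST_STE := by
  obtain ⟨n1, H1⟩ := h1
  obtain ⟨n3, H3⟩ := h3
  obtain ⟨n5, H5⟩ := h5
  refine ⟨max (max n1 n3) (max n5 65536), ?_⟩
  intro n hn D0 r E W0 hR k hk1 hk2
  have hn1 : n1 ≤ n := ((le_max_left _ _).trans (le_max_left _ _)).trans hn
  have hn3 : n3 ≤ n := ((le_max_right _ _).trans (le_max_left _ _)).trans hn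
  have hn5 : n5 ≤ n := ((le_max_left _ _).trans (le_max_right _ _)).trans hn
  have hnb : 65536 ≤ n := ((le_max_right _ _).trans (le_max_right _ _)).trans hn
  obtain ⟨hL1, hL2, hX⟩ := ste_large hnb
  have hnr : (65536 : ℝ) ≤ n := by exact_mod_cast hnb
  have hn0 : (0 : ℝ) < n := by linarith
  obtain ⟨N1, N2, N3⟩ := ste_num hnr hL1 hL2 hX hk1 hk2
  have hk0 : (670 : ℝ) ≤ k := by linarith
  have hkn : 1 ≤ k := by
    have : (1 : ℝ) ≤ k := by linarith
    exact_mod_cast this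
  have ck : ((k - 1 : ℕ) : ℝ) = (k : ℝ) - 1 := by
    rw [Nat.cast_sub hkn, Nat.cast_one]
  have w0 : 66 / 100 * ((n : ℝ) / Real.log n) ≤ ((k - 1 : ℕ) : ℝ) := by rw [ck]; linarith
  have w1 : 66 / 100 * ((n : ℝ) / Real.log n) ≤ (k : ℝ) := by linarith
  have w2 : 66 / 100 * ((n : ℝ) / Real.log n) ≤ ((k + 1 : ℕ) : ℝ) := by push_cast; linarith
  have p0 : 0 < PP E univ (k - 1) := H5 n hn5 D0 r (k - 1) E W0 hR w0
  have p1 : 0 < PP E univ k := H5 n hn5 D0 r k E W0 hR w1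
  have p2 : 0 < PP E univ (k + 1) := H5 n hn5 D0 r (k + 1) E W0 hR w2
  have p0' : (0 : ℝ) < PP E univ (k - 1) := by exact_mod_cast p0
  have p1' : (0 : ℝ) < PP E univ k := by exact_mod_cast p1
  have p2' : (0 : ℝ) < PP E univ (k + 1) := by exact_mod_cast p2
  have u0 : (0 : ℝ) < PP E (univ \ W0) (k - 1) := by
    exact_mod_cast ste_res E (univ \ W0) (k - 1) p0
  have u1 : (0 : ℝ) < PP E (univ \ W0) k := by
    exact_mod_cast ste_res E (univ \ W0) k p1
  have d0 := ste_dec h2 (k - 1) E W0 hR.two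
  have d1 := ste_dec h2 k E W0 hR.two
  have d2 := ste_dec h2 (k + 1) E W0 hR.two
  set δ : ℝ := 1 / 1000 * Real.log n / Real.sqrt n with hδ
  have hδ0 : 0 ≤ δ := by
    rw [hδ]
    have : 0 ≤ Real.log n := by linarith
    positivity
  set U0 : ℝ := (PP E (univ \ W0) (k - 1) : ℝ) with hU0
  set U1 : ℝ := (PP E (univ \ W0) k : ℝ) with hU1
  set η : ℝ := 1 / (n : ℝ) ^ 5 with hη
  have hη0 : 0 ≤ η := by positivity
  have hη1 : η ≤ 1 / 4 := by
    rw [hη]
    apply div_le_div_of_nonneg_left (by norm_num) (by norm_num)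
    have : (65536 : ℝ) ^ 5 ≤ (n : ℝ) ^ 5 := pow_le_pow_left₀ (by norm_num) hnr 5
    norm_num at this
    linarith
  set q1 : ℝ := n / ((k : ℝ) * (k + 1)) with hq1
  set q2 : ℝ := n / (k : ℝ) ^ 2 with hq2
  have hq10 : 0 ≤ q1 := by positivity
  have key := h4 (Finset (Finset (Fin n))) (QQ E W0)
    ((QQ E W0).filter (fun Q => (un Q).card < LL n W0 + W0.card))
    (fun Q => tt E Q (k - 1)) (fun Q => tt E Q k) (fun Q => tt E Q (k + 1))
    (9988 / 10000 * q1) (10042 / 10000 * q2) (2 * δ) η (Real.exp (-δ) * (U1 / U0))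
    (Finset.filter_subset _ _)
    (fun Q _ => ⟨ste_tt_nonneg E Q _, ste_tt_nonneg E Q _, ste_tt_nonneg E Q _⟩)
    (fun Q hQ => by
      obtain ⟨hQ1, hQ2⟩ := Finset.mem_filter.1 hQ
      obtain ⟨c1, c2, c3, _⟩ := H3 n hn3 D0 r k E W0 Q hR hQ1 hQ2 hk1 hk2
      exact ⟨c1, c2, c3⟩)
    (mul_nonneg (by norm_num) hq10) (mul_nonneg (by norm_num) hδ0) hη0 (by linarith)
    (mul_pos (Real.exp_pos _) (div_pos u1 u0))
    (fun Q hQ => by
      obtain ⟨hQ1, hQ2⟩ := Finset.mem_filter.1 hQ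
      obtain ⟨_, _, _, c4, _⟩ := H3 n hn3 D0 r k E W0 Q hR hQ1 hQ2 hk1 hk2
      exact c4)
    (fun Q hQ => by
      obtain ⟨hQ1, hQ2⟩ := Finset.mem_filter.1 hQ
      obtain ⟨_, _, _, _, c5, _⟩ := H3 n hn3 D0 r k E W0 Q hR hQ1 hQ2 hk1 hk2
      exact c5)
    (fun Q hQ => by
      obtain ⟨hQ1, hQ2⟩ := Finset.mem_filter.1 hQ
      obtain ⟨_, _, _, _, _, c6, c7⟩ := H3 n hn3 D0 r k E W0 Q hR hQ1 hQ2 hk1 hk2
      have hexp : 0 < Real.exp δ := Real.exp_pos δ
      have hee : Real.exp (-δ) * Real.exp δ = 1 := by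
        rw [← Real.exp_add]; simp
      constructor
      · have e1 : Real.exp (-δ) * (U1 / U0) * tt E Q (k - 1) =
            Real.exp (-δ) * (U1 * tt E Q (k - 1)) / U0 := by ring
        rw [e1, div_le_iff₀ u0]
        calc Real.exp (-δ) * (U1 * tt E Q (k - 1)) ≤
            Real.exp (-δ) * (Real.exp δ * (tt E Q k * U0)) :=
              mul_le_mul_of_nonneg_left c6 (Real.exp_pos _).le
          _ = (Real.exp (-δ) * Real.exp δ) * (tt E Q k * U0) := by ring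
          _ = tt E Q k * U0 := by rw [hee, one_mul]
      · have e2 : Real.exp (-δ) * Real.exp (2 * δ) = Real.exp δ := by
          rw [← Real.exp_add]; congr 1; ring
        have e1 : Real.exp (-δ) * (U1 / U0) * Real.exp (2 * δ) * tt E Q (k - 1) =
            (Real.exp (-δ) * Real.exp (2 * δ)) * (U1 * tt E Q (k - 1)) / U0 := by ring
        rw [e1, e2, le_div_iff₀ u0]
        exact c7)
    (ste_good (k - 1) E W0 d0 hn0 (H1 n hn1 D0 r (k - 1) E W0 hR w0))
    (ste_good k E W0 d1 hn0 (H1 n hn1 D0 r k E W0 hR w1))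
    (ste_good (k + 1) E W0 d2 hn0 (H1 n hn1 D0 r (k + 1) E W0 hR w2))
  rw [← d0, ← d1, ← d2] at key
  have hε : (2 * δ) ^ 2 = 4 / 1000000 * (Real.log n ^ 2 / n) := by
    rw [hδ]
    have : Real.sqrt n ^ 2 = n := Real.sq_sqrt hn0.le
    rw [mul_pow, div_pow, mul_pow, this]
    ring
  exact ⟨p0', p1', p2', ste_fin hη0 hη1 hq10 (sq_nonneg _) hε N1 N2 N3 (mul_pos p0' p2')
    key.1 key.2⟩

end Pool.Agent.Helper5.FV
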