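import Pool.Agent.Helper43.FV.Spec

/-!
# Module ELLF: the family of translations of an elliptic function field
-/

namespace Pool.Agent.Helper43.FV

open Pool.Agent.Helper43.RS
open scoped ComplexConjugate TensorProduct
open Polynomial
open scoped Polynomial.Bivariate

section Fam

variable {S K : Type} [CommRing S] [Algebra ℂ S] [Field K] [Algebra ℂ K]

theorem ELLF_evT_tmul (z : S →ₐ[ℂ] ℂ) (s : S) (k : K) :
    evT (R := K) z (s ⊗ₜ[ℂ] k) = z s • k := by
  rw [evT, Algebra.TensorProduct.lift_tmul, Algebra.smul_def]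
  rfl

theorem ELLF_fam_iff (P : (S →ₐ[ℂ] ℂ) → K) :
    Fam P ↔ ∃ t : S ⊗[ℂ] K, ∀ z, P z = evT z t := by
  constructor
  · rintro ⟨n, s, k, h⟩
    refine ⟨∑ i, s i ⊗ₜ[ℂ] k i, fun z => ?_⟩
    rw [map_sum, h z]
    exact Finset.sum_congr rfl fun i _ => (ELLF_evT_tmul z _ _).symm
  · rintro ⟨t, ht⟩
    have key : ∀ t : S ⊗[ℂ] K, ∃ (n : ℕ) (s : Fin n → S) (k : Fin n → K),
        ∀ z : S →ₐ[ℂ] ℂ, evT z t = ∑ i, z (s i) • k i := by
      intro t
      induction t using TensorProduct.induction_on with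
      | zero => exact ⟨0, Fin.elim0, Fin.elim0, fun z => by simp⟩
      | tmul s k => exact ⟨1, fun _ => s, fun _ => k, fun z => by simp [ELLF_evT_tmul]⟩
      | add a b ha hb =>
        obtain ⟨n, s, k, h⟩ := ha
        obtain ⟨n', s', k', h'⟩ := hb
        refine ⟨n + n', Fin.append s s', Fin.append k k', fun z => ?_⟩
        rw [map_add, h, h', Fin.sum_univ_add]
        simp [Fin.append_left, Fin.append_right]
    obtain ⟨n, s, k, h⟩ := key t
    exact ⟨n, s, k, fun z => by rw [ht, h]⟩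

theorem ELLF_add {P Q : (S →ₐ[ℂ] ℂ) → K} (hP : Fam P) (hQ : Fam Q) :
    Fam (fun z => P z + Q z) := by
  rw [ELLF_fam_iff] at *
  obtain ⟨t, ht⟩ := hP
  obtain ⟨u, hu⟩ := hQ
  exact ⟨t + u, fun z => by rw [map_add, ← ht, ← hu]⟩

theorem ELLF_mul {P Q : (S →ₐ[ℂ] ℂ) → K} (hP : Fam P) (hQ : Fam Q) :
    Fam (fun z => P z * Q z) := by
  rw [ELLF_fam_iff] at *
  obtain ⟨t, ht⟩ := hP
  obtain ⟨u, hu⟩ := hQ
  exact ⟨t * u, fun z => by rw [map_mul, ← ht, ← hu]⟩

theorem ELLF_sub {P Q : (S →ₐ[ℂ] ℂ) → K} (hP : Fam P) (hQ : Fam Q) :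
    Fam (fun z => P z - Q z) := by
  rw [ELLF_fam_iff] at *
  obtain ⟨t, ht⟩ := hP
  obtain ⟨u, hu⟩ := hQ
  exact ⟨t - u, fun z => by rw [map_sub, ← ht, ← hu]⟩

theorem ELLF_neg {P : (S →ₐ[ℂ] ℂ) → K} (hP : Fam P) : Fam (fun z => -P z) := by
  rw [ELLF_fam_iff] at *
  obtain ⟨t, ht⟩ := hP
  exact ⟨-t, fun z => by rw [map_neg, ← ht]⟩

theorem ELLF_pow {P : (S →ₐ[ℂ] ℂ) → K} (hP : Fam P) (n : ℕ) : Fam (fun z => P z ^ n) := by
  rw [ELLF_fam_iff] at *
  obtain ⟨t, ht⟩ := hP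
  exact ⟨t ^ n, fun z => by rw [map_pow, ← ht]⟩

theorem ELLF_const (k : K) : Fam (fun _ : S →ₐ[ℂ] ℂ => k) := by
  rw [ELLF_fam_iff]
  exact ⟨1 ⊗ₜ[ℂ] k, fun z => by rw [ELLF_evT_tmul, map_one, one_smul]⟩

theorem ELLF_coe (s : S) : Fam (fun z : S →ₐ[ℂ] ℂ => algebraMap ℂ K (z s)) := by
  rw [ELLF_fam_iff]
  exact ⟨s ⊗ₜ[ℂ] 1, fun z => by rw [ELLF_evT_tmul, Algebra.algebraMap_eq_smul_one]⟩

end Fam

/-- all elements of a field are fractions of families if the generators are -/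
theorem ELLF_gen {S F : Type} [CommRing S] [Algebra ℂ S] [Field F] [Algebra ℂ F]
    (τ : (S →ₐ[ℂ] ℂ) → (F ≃ₐ[ℂ] F)) (s : Set F) (hs : FGen s)
    (h : ∀ f ∈ s, ∃ N D : (S →ₐ[ℂ] ℂ) → F, Fam N ∧ Fam D ∧ ∀ z, D z ≠ 0 ∧ D z * τ z f = N z)
    (f : F) : ∃ N D : (S →ₐ[ℂ] ℂ) → F, Fam N ∧ Fam D ∧ ∀ z, D z ≠ 0 ∧ D z * τ z f = N z := by
  have hf : f ∈ IntermediateField.adjoin ℂ s := by
    rw [hs]
    exact IntermediateField.mem_top
  induction hf using IntermediateField.adjoin_induction with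
  | mem x hx => exact h x hx
  | algebraMap x =>
    refine ⟨fun _ => algebraMap ℂ F x, fun _ => 1, ELLF_const _, ELLF_const _, fun z => ?_⟩
    exact ⟨one_ne_zero, by rw [AlgEquiv.commutes, one_mul]⟩
  | add x y _ _ hx hy =>
    obtain ⟨N, D, hN, hD, h1⟩ := hx
    obtain ⟨N', D', hN', hD', h2⟩ := hy
    refine ⟨fun z => N z * D' z + N' z * D z, fun z => D z * D' z,
      ELLF_add (ELLF_mul hN hD') (ELLF_mul hN' hD), ELLF_mul hD hD', fun z => ?_⟩
    refine ⟨mul_ne_zero (h1 z).1 (h2 z).1, ?_⟩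
    show D z * D' z * τ z (x + y) = N z * D' z + N' z * D z
    rw [map_add, ← (h1 z).2, ← (h2 z).2]
    ring
  | mul x y _ _ hx hy =>
    obtain ⟨N, D, hN, hD, h1⟩ := hx
    obtain ⟨N', D', hN', hD', h2⟩ := hy
    refine ⟨fun z => N z * N' z, fun z => D z * D' z,
      ELLF_mul hN hN', ELLF_mul hD hD', fun z => ?_⟩
    refine ⟨mul_ne_zero (h1 z).1 (h2 z).1, ?_⟩
    show D z * D' z * τ z (x * y) = N z * N' z
    rw [map_mul, ← (h1 z).2, ← (h2 z).2]
    ring
  | inv x _ hx =>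
    by_cases h0 : x = 0
    · subst h0
      refine ⟨fun _ => 0, fun _ => 1, ELLF_const _, ELLF_const _, fun z => ?_⟩
      simp
    obtain ⟨N, D, hN, hD, h1⟩ := hx
    refine ⟨D, N, hD, hN, fun z => ?_⟩
    have h2 : τ z x ≠ 0 := by
      rw [Ne, map_eq_zero_iff _ (τ z).injective]
      exact h0
    refine ⟨?_, ?_⟩
    · rw [← (h1 z).2]
      exact mul_ne_zero (h1 z).1 h2
    · rw [← (h1 z).2, map_inv₀, mul_assoc, mul_inv_cancel₀ h2, mul_one]

/-- translation formulas as fractions of families -/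
theorem ELLF_xy {F : Type} [Field F] {x y a b t u : F}
    (h1 : (x - a) ^ 2 * t = (y - b) ^ 2 - (x + a) * (x - a) ^ 2)
    (h2 : (x - a) * (u + y) = -(y - b) * (t - x)) :
    (x - a) ^ 3 * u = -(y * (x - a) ^ 3) -
      (y - b) * ((y - b) ^ 2 - (x + a) * (x - a) ^ 2 - x * (x - a) ^ 2) := by
  have h3 : (x - a) ^ 2 * ((x - a) * (u + y)) = (x - a) ^ 2 * (-(y - b) * (t - x)) := by
    rw [h2]
  have h4 : (x - a) ^ 2 * (-(y - b) * (t - x)) = -(y - b) * ((x - a) ^ 2 * t - x * (x - a) ^ 2) := by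
    ring
  rw [h4, h1] at h3
  linear_combination h3

section Curve

variable (A B : ℂ)

theorem ELLF_equation (a b : ℂ) : (WC A B).Equation a b ↔ b ^ 2 = a ^ 3 + A * a + B := by
  rw [WeierstrassCurve.Affine.equation_iff]
  simp [WC]

theorem ELLF_nonsing (h : 4 * A ^ 3 + 27 * B ^ 2 ≠ 0) (a b : ℂ) :
    (WC A B).Nonsingular a b ↔ b ^ 2 = a ^ 3 + A * a + B := by
  have hΔ : WeierstrassCurve.Δ (WC A B) ≠ 0 := by
    have : WeierstrassCurve.Δ (WC A B) = -16 * (4 * A ^ 3 + 27 * B ^ 2) := by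
      simp only [WC, WeierstrassCurve.Δ, WeierstrassCurve.b₂, WeierstrassCurve.b₄,
        WeierstrassCurve.b₆, WeierstrassCurve.b₈]
      ring
    rw [this]
    exact mul_ne_zero (by norm_num) h
  rw [← WeierstrassCurve.Affine.equation_iff_nonsingular_of_Δ_ne_zero hΔ, ELLF_equation]

/-- the coordinate ring -/
abbrev ELLF_S : Type := (WC A B).CoordinateRing

noncomputable def ELLF_X : ELLF_S A B := WeierstrassCurve.Affine.CoordinateRing.mk (WC A B) (C X)

noncomputable def ELLF_Y : ELLF_S A B := WeierstrassCurve.Affine.CoordinateRing.mk (WC A B) Y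

theorem ELLF_poly : (WC A B).polynomial = Y ^ 2 - C (X ^ 3 + C A * X + C B) := by
  rw [WeierstrassCurve.Affine.polynomial]
  simp [WC]

theorem ELLF_rel : ELLF_Y A B ^ 2 =
    ELLF_X A B ^ 3 + algebraMap ℂ (ELLF_S A B) A * ELLF_X A B + algebraMap ℂ (ELLF_S A B) B := by
  have h : WeierstrassCurve.Affine.CoordinateRing.mk (WC A B)
      (Y ^ 2 - C (X ^ 3 + C A * X + C B)) = 0 := by
    have h1 : WeierstrassCurve.Affine.CoordinateRing.mk (WC A B) (WC A B).polynomial = 0 :=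
      AdjoinRoot.mk_self
    have h2 := congrArg (WeierstrassCurve.Affine.CoordinateRing.mk (WC A B)) (ELLF_poly A B)
    exact h2.symm.trans h1
  rw [map_sub, sub_eq_zero, map_pow] at h
  rw [ELLF_Y, h]
  simp only [map_add, map_mul, map_pow, ELLF_X]
  rfl

theorem ELLF_finite : Module.Finite ℂ[X] (ELLF_S A B) :=
  Module.Finite.of_basis (WeierstrassCurve.Affine.CoordinateRing.basis (WC A B))

theorem ELLF_ft : Algebra.FiniteType ℂ (ELLF_S A B) := by
  have := ELLF_finite A B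
  exact Algebra.FiniteType.trans (S := ℂ[X]) inferInstance inferInstance

theorem ELLF_dim (P : Ideal (ELLF_S A B)) (hP : P.IsPrime) (h0 : P ≠ ⊥) : P.IsMaximal := by
  have := ELLF_finite A B
  have : Algebra.IsIntegral ℂ[X] (ELLF_S A B) := inferInstance
  have h1 : P.comap (algebraMap ℂ[X] (ELLF_S A B)) ≠ ⊥ := by
    obtain ⟨p, hp, hp0⟩ := Submodule.exists_mem_ne_zero_of_ne_bot h0
    exact Ideal.comap_ne_bot_of_integral_mem hp0 hp (Algebra.IsIntegral.isIntegral p)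
  have h2 : (P.comap (algebraMap ℂ[X] (ELLF_S A B))).IsPrime := hP.comap _
  have h3 : (P.comap (algebraMap ℂ[X] (ELLF_S A B))).IsMaximal :=
    IsPrime.to_maximal_ideal h1
  exact Ideal.isMaximal_of_isIntegral_of_isMaximal_comap P h3

/-- the point of the coordinate ring attached to a point of the curve -/
theorem ELLF_pt (a b : ℂ) (h : b ^ 2 = a ^ 3 + A * a + B) :
    ∃ z : ELLF_S A B →ₐ[ℂ] ℂ, z (ELLF_X A B) = a ∧ z (ELLF_Y A B) = b := by
  have h1 : (WC A B).polynomial.eval₂ (evalRingHom a) b = 0 := by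
    rw [ELLF_poly]
    simp only [eval₂_sub, eval₂_pow, eval₂_X, eval₂_C, coe_evalRingHom, eval_add, eval_mul,
      eval_pow, eval_X, eval_C]
    rw [h, sub_self]
  refine ⟨{ AdjoinRoot.lift (evalRingHom a) b h1 with commutes' := fun c => ?_ }, ?_, ?_⟩
  · show AdjoinRoot.lift (evalRingHom a) b h1 (AdjoinRoot.of (WC A B).polynomial (C c)) = c
    rw [AdjoinRoot.lift_of]
    simp
  · show AdjoinRoot.lift (evalRingHom a) b h1 (AdjoinRoot.mk (WC A B).polynomial (C X)) = a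
    rw [AdjoinRoot.lift_mk]
    simp
  · show AdjoinRoot.lift (evalRingHom a) b h1 (AdjoinRoot.mk (WC A B).polynomial X) = b
    rw [AdjoinRoot.lift_mk]
    simp

end Curve

theorem ELLF_val {F : Type} [Field F] [Algebra ℂ F] {o : Pl F} {x : F} (ho : o.1 x = -2)
    (a : ℂ) : x - algebraMap ℂ F a ≠ 0 := by
  intro h
  rw [sub_eq_zero] at h
  rw [h, o.2.const] at ho
  omega

open Classical in
theorem st_ELLF : ST_ELLF := by
  intro F _ _ o A B x y hF hW T hT
  have hrel : ∀ z : ELLF_S A B →ₐ[ℂ] ℂ,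
      (z (ELLF_Y A B)) ^ 2 = (z (ELLF_X A B)) ^ 3 + A * z (ELLF_X A B) + B := by
    intro z
    have h := congrArg z (ELLF_rel A B)
    simpa using h
  let θ : (ELLF_S A B →ₐ[ℂ] ℂ) → (WC A B).Point := fun z =>
    .some (z (ELLF_X A B)) (z (ELLF_Y A B)) ((ELLF_nonsing A B hW.disc _ _).2 (hrel z))
  refine ⟨ELLF_S A B, inferInstance, inferInstance, inferInstance, ELLF_ft A B, θ,
    ELLF_dim A B, ?_, ?_⟩
  · apply Set.Finite.subset (Set.finite_singleton (0 : (WC A B).Point))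
    intro q hq
    rw [Set.mem_singleton_iff]
    rcases q with _ | ⟨a, b, h⟩
    · rfl
    · exfalso
      apply hq
      obtain ⟨z, h1, h2⟩ := ELLF_pt A B a b ((ELLF_nonsing A B hW.disc a b).1 h)
      refine ⟨z, ?_⟩
      show WeierstrassCurve.Affine.Point.some _ _ _ = _
      subst h1
      subst h2
      rfl
  · have hX : ∀ a : ℂ, x - algebraMap ℂ F a ≠ 0 := ELLF_val hW.ox
    have main : ∀ (τ : (ELLF_S A B →ₐ[ℂ] ℂ) → (F ≃ₐ[ℂ] F)) (Yc : ELLF_S A B)
        (hτ : ∀ z, (x - algebraMap ℂ F (z (ELLF_X A B))) ^ 2 * τ z x =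
            (y - algebraMap ℂ F (z Yc)) ^ 2 - (x + algebraMap ℂ F (z (ELLF_X A B))) *
              (x - algebraMap ℂ F (z (ELLF_X A B))) ^ 2 ∧
          (x - algebraMap ℂ F (z (ELLF_X A B))) * (τ z y + y) =
            -(y - algebraMap ℂ F (z Yc)) * (τ z x - x)),
        ∀ f : F, ∃ N D : (ELLF_S A B →ₐ[ℂ] ℂ) → F, Fam N ∧ Fam D ∧
          ∀ z, D z ≠ 0 ∧ D z * τ z f = N z := by
      intro τ Yc hτ
      have hXs := ELLF_sub (ELLF_const (S := ELLF_S A B) x) (ELLF_coe (K := F) (ELLF_X A B))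
      have hXa := ELLF_add (ELLF_const (S := ELLF_S A B) x) (ELLF_coe (K := F) (ELLF_X A B))
      have hYs := ELLF_sub (ELLF_const (S := ELLF_S A B) y) (ELLF_coe (K := F) Yc)
      apply ELLF_gen τ _ hW.gen
      intro f hf
      rcases hf with rfl | hf
      · exact ⟨_, _, ELLF_sub (ELLF_pow hYs 2) (ELLF_mul hXa (ELLF_pow hXs 2)), ELLF_pow hXs 2,
          fun z => ⟨pow_ne_zero _ (hX _), (hτ z).1⟩⟩
      · rw [Set.mem_singleton_iff] at hf
        subst hf
        exact ⟨_, _, ELLF_sub (ELLF_neg (ELLF_mul (ELLF_const (S := ELLF_S A B) f)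
            (ELLF_pow hXs 3))) (ELLF_mul hYs (ELLF_sub (ELLF_sub (ELLF_pow hYs 2)
            (ELLF_mul hXa (ELLF_pow hXs 2))) (ELLF_mul (ELLF_const (S := ELLF_S A B) x)
            (ELLF_pow hXs 2)))), ELLF_pow hXs 3,
          fun z => ⟨pow_ne_zero _ (hX _), ELLF_xy (hτ z).1 (hτ z).2⟩⟩
    intro f
    obtain ⟨N, D, hN, hD, h1⟩ := main (fun z => T (Multiplicative.ofAdd (θ z))) (ELLF_Y A B)
      (fun z => hT _ _ _) f
    obtain ⟨N', D', hN', hD', h2⟩ := main (fun z => T (Multiplicative.ofAdd (-θ z)))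
      (-ELLF_Y A B) (fun z => by
        have hneg : -θ z = .some (z (ELLF_X A B)) (z (-ELLF_Y A B))
            ((ELLF_nonsing A B hW.disc _ _).2 (by rw [map_neg, neg_sq]; exact hrel z)) := by
          show -WeierstrassCurve.Affine.Point.some _ _ _ = _
          rw [WeierstrassCurve.Affine.Point.neg_some]
          have : (WC A B).negY (z (ELLF_X A B)) (z (ELLF_Y A B)) = z (-ELLF_Y A B) := by
            rw [WeierstrassCurve.Affine.negY, map_neg]
            simp [WC]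
          simp only [this]
        rw [hneg]
        exact hT _ _ _) f
    exact ⟨N, D, N', D', hN, hD, hN', hD', fun z => ⟨(h1 z).1, (h1 z).2, (h2 z).1, (h2 z).2⟩⟩

end Pool.Agent.Helper43.FV
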